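import Mathlib.SetTheory.Ordinal.Basic
import Mathlib.Order.Monotone.Basic

/-!
# Project BA, module B4: chains of length the class of all small ordinals
-/

set_option autoImplicit false

namespace Pool.Agent.Helper94.BA

universe v

section

variable {D : Type v} [Preorder D] (Q : Ordinal.{0} → D → Prop) (d₀ : D)

open Classical in
/-- The chain. -/
noncomputable def h45_chain : Ordinal.{0} → D :=
  WellFounded.fix (C := fun _ => D) (r := ((· < ·) : Ordinal.{0} → Ordinal.{0} → Prop))
    wellFounded_lt fun α g =>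
      if h : ∃ d, (∀ (β : Ordinal.{0}) (hβ : β < α), g β hβ ≤ d) ∧ Q α d then h.choose else d₀

open Classical in
theorem h45_chain_eq (α : Ordinal.{0}) : h45_chain Q d₀ α =
    if h : ∃ d, (∀ (β : Ordinal.{0}) (_ : β < α), h45_chain Q d₀ β ≤ d) ∧ Q α d
      then h.choose else d₀ := by
  unfold h45_chain
  rw [WellFounded.fix_eq]

end

/-- N17. -/
theorem exists_chain {D : Type v} [Preorder D] [Nonempty D]
    (ub : ∀ (α : Ordinal.{0}) (f : Set.Iio α → D), Monotone f → ∃ d, ∀ i, f i ≤ d)
    (Q : Ordinal.{0} → D → Prop) (hQ : ∀ α d, ∃ d', d ≤ d' ∧ Q α d') :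
    ∃ f : Ordinal.{0} → D, Monotone f ∧ ∀ α, Q α (f α) := by
  classical
  obtain ⟨d₀⟩ : Nonempty D := inferInstance
  have key : ∀ α : Ordinal.{0}, (∀ β : Ordinal.{0}, β < α → h45_chain Q d₀ β ≤ h45_chain Q d₀ α) ∧
      Q α (h45_chain Q d₀ α) := by
    intro α
    induction α using WellFoundedLT.induction with
    | _ α ih =>
      have hmono : Monotone (fun i : Set.Iio α => h45_chain Q d₀ i.1) := by
        intro i j hij
        rcases (show i.1 ≤ j.1 from hij).eq_or_lt with h | h
        · simp only [h]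
          exact le_refl _
        · exact (ih j.1 j.2).1 i.1 h
      obtain ⟨d, hd⟩ := ub α _ hmono
      obtain ⟨d', hd', hQd⟩ := hQ α d
      have hex : ∃ d, (∀ (β : Ordinal.{0}) (_ : β < α), h45_chain Q d₀ β ≤ d) ∧ Q α d :=
        ⟨d', fun β hβ => (hd ⟨β, hβ⟩).trans hd', hQd⟩
      rw [h45_chain_eq Q d₀ α, dif_pos hex]
      exact hex.choose_spec
  refine ⟨h45_chain Q d₀, ?_, fun α => (key α).2⟩
  intro β α hβα
  rcases hβα.eq_or_lt with h | h
  · rw [h]
  · exact (key α).1 β h

end Pool.Agent.Helper94.BA
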